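import Mathlib

set_option autoImplicit false

/-!
# The key lemma of theorem (A)

Let `R` be a domain, `d ≠ 0`, `G` a set of variables. If a polynomial `P` vanishes to order `j` at
all points of `{0, d}^G`, then for every exponent `m` of degree `j` the coefficient of `m` in `P`
is divisible by `d ^ m(G)`.
-/

namespace MP_144d21_co.ABS
open MvPolynomial

section onevar

variable {A : Type*} [CommRing A]

/-- every polynomial is `p(y) + X q(y)`, `y = X ^ 2 + a X` -/
theorem exists_decomp (a : A) (Q : Polynomial A) :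
    ∃ p q : Polynomial A,
      Q = p.comp (Polynomial.X ^ 2 + Polynomial.C a * Polynomial.X) +
        Polynomial.X * q.comp (Polynomial.X ^ 2 + Polynomial.C a * Polynomial.X) := by
  induction Q using Polynomial.induction_on with
  | C b => exact ⟨Polynomial.C b, 0, by simp⟩
  | add P Q hP hQ =>
    obtain ⟨p, q, h⟩ := hP
    obtain ⟨p', q', h'⟩ := hQ
    refine ⟨p + p', q + q', ?_⟩
    rw [h, h', Polynomial.add_comp, Polynomial.add_comp]
    ring
  | monomial n b h =>
    obtain ⟨p, q, h⟩ := h
    refine ⟨Polynomial.X * q, p - Polynomial.C a * q, ?_⟩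
    rw [pow_succ, ← mul_assoc, h]
    simp only [Polynomial.mul_comp, Polynomial.sub_comp, Polynomial.X_comp, Polynomial.C_comp]
    ring

theorem shift_y (a : A) :
    (Polynomial.X ^ 2 + Polynomial.C (-a) * Polynomial.X : Polynomial A).comp
      (Polynomial.X + Polynomial.C a) = Polynomial.X ^ 2 + Polynomial.C a * Polynomial.X := by
  simp only [Polynomial.add_comp, Polynomial.mul_comp, Polynomial.pow_comp, Polynomial.X_comp,
    Polynomial.C_neg, Polynomial.neg_comp, Polynomial.C_comp]
  ring

end onevar

section tri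

variable {R : Type*} [CommRing R] {n : ℕ}

/-- the coefficients of `(X ^ 2 + d X) ^ l` -/
noncomputable def cc (d : R) (l s : ℕ) : R :=
  ((Polynomial.X ^ 2 + Polynomial.C d * Polynomial.X : Polynomial R) ^ l).coeff s

theorem cc_lt (d : R) {l s : ℕ} (h : s < l) : cc d l s = 0 := by
  unfold cc
  have h1 : (Polynomial.X ^ 2 + Polynomial.C d * Polynomial.X : Polynomial R) ^ l =
      Polynomial.X ^ l * (Polynomial.X + Polynomial.C d) ^ l := by
    rw [← mul_pow]; ring
  rw [h1, Polynomial.coeff_X_pow_mul', if_neg (by omega)]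

theorem cc_self (d : R) (s : ℕ) : cc d s s = d ^ s := by
  unfold cc
  have h1 : (Polynomial.X ^ 2 + Polynomial.C d * Polynomial.X : Polynomial R) ^ s =
      Polynomial.X ^ s * (Polynomial.X + Polynomial.C d) ^ s := by
    rw [← mul_pow]; ring
  rw [h1, Polynomial.coeff_X_pow_mul', if_pos le_rfl, Nat.sub_self,
    Polynomial.coeff_zero_eq_eval_zero]
  simp

/-- coefficients of `p(y)` -/
theorem coeff_comp (d : R) (p : Polynomial (MvPolynomial (Fin n) R)) (m : Fin n →₀ ℕ) (s : ℕ) :
    coeff m ((p.comp (Polynomial.X ^ 2 + Polynomial.C (C d) * Polynomial.X)).coeff s) =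
      ∑ l ∈ Finset.range (p.natDegree + 1), coeff m (p.coeff l) * cc d l s := by
  have h1 : p.comp (Polynomial.X ^ 2 + Polynomial.C (C d) * Polynomial.X) =
      ∑ l ∈ Finset.range (p.natDegree + 1), Polynomial.C (p.coeff l) *
        (Polynomial.X ^ 2 + Polynomial.C (C d) * Polynomial.X) ^ l := by
    rw [Polynomial.comp, Polynomial.eval₂_eq_sum_range]
  rw [h1, Polynomial.finsetSum_coeff, coeff_sum]
  refine Finset.sum_congr rfl fun l _ => ?_
  have h2 : (Polynomial.X ^ 2 + Polynomial.C (C d) * Polynomial.X :
      Polynomial (MvPolynomial (Fin n) R)) ^ l =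
      ((Polynomial.X ^ 2 + Polynomial.C d * Polynomial.X : Polynomial R) ^ l).map
        (C : R →+* MvPolynomial (Fin n) R) := by
    simp
  rw [h2, Polynomial.coeff_C_mul, Polynomial.coeff_map, mul_comm (p.coeff l), coeff_C_mul,
    mul_comm]
  rfl

theorem coeff_comp_of_zero (a : R) (p : Polynomial (MvPolynomial (Fin n) R)) (m : Fin n →₀ ℕ)
    (s : ℕ) (hs : ∀ l < s, coeff m (p.coeff l) = 0) :
    coeff m ((p.comp (Polynomial.X ^ 2 + Polynomial.C (C a) * Polynomial.X)).coeff s) =
      a ^ s * coeff m (p.coeff s) := by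
  rw [coeff_comp]
  by_cases hN : s < p.natDegree + 1
  · rw [Finset.sum_eq_single s]
    · rw [cc_self, mul_comm]
    · intro l _ hl
      rcases lt_or_gt_of_ne hl with h1 | h1
      · rw [hs l h1, zero_mul]
      · rw [cc_lt a h1, mul_zero]
    · intro h1
      exact absurd (Finset.mem_range.2 hN) h1
  · have h0 : p.coeff s = 0 := Polynomial.coeff_eq_zero_of_natDegree_lt (by omega)
    rw [h0, coeff_zero, mul_zero]
    refine Finset.sum_eq_zero fun l hl => ?_
    rw [hs l (by have := Finset.mem_range.1 hl; omega), zero_mul]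

theorem coeff_X_mul_comp_of_zero (a : R) (q : Polynomial (MvPolynomial (Fin n) R))
    (m : Fin n →₀ ℕ) (s : ℕ) (hs : ∀ l < s, coeff m (q.coeff l) = 0) :
    coeff m ((Polynomial.X *
      q.comp (Polynomial.X ^ 2 + Polynomial.C (C a) * Polynomial.X)).coeff s) = 0 := by
  rcases s with _ | s
  · rw [Polynomial.mul_coeff_zero, Polynomial.coeff_X_zero, zero_mul, coeff_zero]
  · rw [Polynomial.coeff_X_mul, coeff_comp_of_zero a q m s fun l hl => hs l (by omega),
      hs s (by omega), mul_zero]

variable [IsDomain R]

/-- the triangular system -/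
theorem tri {d : R} (hd : d ≠ 0) (p q : Polynomial (MvPolynomial (Fin n) R)) (m : Fin n →₀ ℕ)
    (J : ℕ)
    (h1 : ∀ s < J, coeff m
      ((p.comp (Polynomial.X ^ 2 + Polynomial.C (C (-d)) * Polynomial.X) +
        Polynomial.X * q.comp (Polynomial.X ^ 2 +
          Polynomial.C (C (-d)) * Polynomial.X)).coeff s) = 0)
    (h2 : ∀ s < J, coeff m
      ((p.comp (Polynomial.X ^ 2 + Polynomial.C (C d) * Polynomial.X) +
        (Polynomial.X + Polynomial.C (C d)) * q.comp (Polynomial.X ^ 2 +
          Polynomial.C (C d) * Polynomial.X)).coeff s) = 0) :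
    (∀ s < J, coeff m (p.coeff s) = 0) ∧
      coeff m ((p.comp (Polynomial.X ^ 2 + Polynomial.C (C (-d)) * Polynomial.X) +
        Polynomial.X * q.comp (Polynomial.X ^ 2 +
          Polynomial.C (C (-d)) * Polynomial.X)).coeff J) =
        (-d) ^ J * coeff m (p.coeff J) := by
  have h3 : ∀ s, s < J → coeff m (p.coeff s) = 0 ∧ coeff m (q.coeff s) = 0 := by
    intro s
    induction s using Nat.strong_induction_on with
    | _ s ih =>
      intro hs
      have hp : ∀ l < s, coeff m (p.coeff l) = 0 := fun l hl => (ih l hl (by omega)).1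
      have hq : ∀ l < s, coeff m (q.coeff l) = 0 := fun l hl => (ih l hl (by omega)).2
      have h4 := h1 s hs
      rw [Polynomial.coeff_add, coeff_add, coeff_comp_of_zero _ p m s hp,
        coeff_X_mul_comp_of_zero _ q m s hq, add_zero] at h4
      have h5 : coeff m (p.coeff s) = 0 :=
        (mul_eq_zero.1 h4).resolve_left (pow_ne_zero s (neg_ne_zero.2 hd))
      refine ⟨h5, ?_⟩
      have h6 := h2 s hs
      rw [add_mul, Polynomial.coeff_add, Polynomial.coeff_add, coeff_add, coeff_add,
        coeff_comp_of_zero _ p m s hp, coeff_X_mul_comp_of_zero _ q m s hq, h5, mul_zero,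
        zero_add, zero_add, Polynomial.coeff_C_mul, coeff_C_mul,
        coeff_comp_of_zero _ q m s hq] at h6
      exact ((mul_eq_zero.1 h6).resolve_left hd |> mul_eq_zero.1).resolve_left (pow_ne_zero s hd)
  refine ⟨fun s hs => (h3 s hs).1, ?_⟩
  rw [Polynomial.coeff_add, coeff_add, coeff_comp_of_zero _ p m J fun l hl => (h3 l hl).1,
    coeff_X_mul_comp_of_zero _ q m J fun l hl => (h3 l hl).2, add_zero]

end tri

section trans

variable {R : Type*} [CommRing R]

/-- translation of the variables by `v` -/
noncomputable def tr {n : ℕ} (v : Fin n → R) : MvPolynomial (Fin n) R →ₐ[R] MvPolynomial (Fin n) R :=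
  aeval fun k => X k + C (v k)

theorem tr_succ {n : ℕ} (v : Fin (n + 1) → R) (P : MvPolynomial (Fin (n + 1)) R) :
    finSuccEquiv R n (tr v P) =
      ((finSuccEquiv R n P).map (tr (fun k => v k.succ) : MvPolynomial (Fin n) R →ₐ[R]
        MvPolynomial (Fin n) R).toRingHom).comp
        (Polynomial.X + Polynomial.C (C (v 0))) := by
  induction P using MvPolynomial.induction_on with
  | C a =>
    have h1 : tr v (C a) = C a := (tr v).commutes a
    have h2 : finSuccEquiv R n (C a) = Polynomial.C (C a) := (finSuccEquiv R n).commutes a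
    have h3 : (tr (fun k => v k.succ) : MvPolynomial (Fin n) R →ₐ[R]
        MvPolynomial (Fin n) R).toRingHom (C a) = C a := (tr (fun k => v k.succ)).commutes a
    rw [h1, h2, Polynomial.map_C, h3, Polynomial.C_comp]
  | add p q hp hq =>
    rw [map_add, map_add, hp, hq, map_add, Polynomial.map_add, Polynomial.add_comp]
  | mul_X p i hp =>
    rw [map_mul, map_mul, hp, map_mul, Polynomial.map_mul, Polynomial.mul_comp]
    congr 1
    have h1 : tr v (X i) = X i + C (v i) := by
      unfold tr; exact aeval_X _ _
    have h2 : ∀ a : R, finSuccEquiv R n (C a) = Polynomial.C (C a) :=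
      fun a => (finSuccEquiv R n).commutes a
    rw [h1, map_add, h2]
    refine Fin.cases ?_ (fun i => ?_) i
    · rw [finSuccEquiv_X_zero, Polynomial.map_X, Polynomial.X_comp]
    · have h3 : (tr (fun k => v k.succ) : MvPolynomial (Fin n) R →ₐ[R]
        MvPolynomial (Fin n) R).toRingHom (X i) = X i + C (v i.succ) := by
        show tr _ _ = _
        unfold tr; exact aeval_X _ _
      rw [finSuccEquiv_X_succ, Polynomial.map_C, h3, Polynomial.C_comp, Polynomial.C_add]

/-- the part of an exponent on the variables in `G` -/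
def wt {n : ℕ} (G : Fin n → Prop) [DecidablePred G] (m : Fin n →₀ ℕ) : ℕ :=
  ∑ k, if G k then m k else 0

theorem degree_cons {n : ℕ} (i : ℕ) (m : Fin n →₀ ℕ) : (m.cons i).degree = i + m.degree := by
  rw [Finsupp.degree_eq_sum, Finsupp.degree_eq_sum, Fin.sum_univ_succ]
  simp

theorem wt_cons {n : ℕ} (G : Fin (n + 1) → Prop) [DecidablePred G] (i : ℕ) (m : Fin n →₀ ℕ) :
    wt G (m.cons i) = (if G 0 then i else 0) + wt (fun k => G k.succ) m := by
  unfold wt
  rw [Fin.sum_univ_succ]
  simp

end trans

theorem key {R : Type*} [CommRing R] [IsDomain R] {d : R} (hd : d ≠ 0) :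
    ∀ (n : ℕ) (G : Fin n → Prop) [DecidablePred G] (P : MvPolynomial (Fin n) R) (j : ℕ),
    (∀ v : Fin n → R, (∀ k, v k = 0 ∨ (G k ∧ v k = d)) → ∀ m : Fin n →₀ ℕ, m.degree < j →
      coeff m (tr v P) = 0) →
    ∀ m : Fin n →₀ ℕ, m.degree = j → d ^ wt G m ∣ coeff m P := by
  intro n
  induction n with
  | zero =>
    intro G _ P j _ m _
    simp [wt]
  | succ n ih =>
    intro G _ P j h m hm
    obtain ⟨i, m', rfl⟩ : ∃ i m', m = Finsupp.cons i m' := ⟨m 0, m.tail, (Finsupp.cons_tail m).symm⟩
    rw [degree_cons] at hm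
    rw [wt_cons, ← finSuccEquiv_coeff_coeff]
    -- the hypothesis in terms of polynomials in `X 0`
    have hyp : ∀ (v0 : R) (v : Fin n → R), (v0 = 0 ∨ (G 0 ∧ v0 = d)) →
        (∀ k, v k = 0 ∨ (G k.succ ∧ v k = d)) → ∀ (s : ℕ) (m : Fin n →₀ ℕ),
        s + m.degree < j → coeff m ((((finSuccEquiv R n P).map (tr v : MvPolynomial (Fin n) R →ₐ[R]
          MvPolynomial (Fin n) R).toRingHom).comp
          (Polynomial.X + Polynomial.C (C v0))).coeff s) = 0 := by
      intro v0 v h0 hv s m hs
      have h1 := h (Fin.cons v0 v) (fun k => by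
        refine Fin.cases ?_ (fun k => ?_) k
        · simpa using h0
        · simpa using hv k) (Finsupp.cons s m) (by rw [degree_cons]; exact hs)
      rw [← finSuccEquiv_coeff_coeff, tr_succ] at h1
      simpa using h1
    by_cases hG : G 0
    · rw [if_pos hG]
      obtain ⟨p, q, hpq⟩ := exists_decomp (C (-d) : MvPolynomial (Fin n) R) (finSuccEquiv R n P)
      set y : Polynomial (MvPolynomial (Fin n) R) :=
        Polynomial.X ^ 2 + Polynomial.C (C (-d)) * Polynomial.X with hy
      set y' : Polynomial (MvPolynomial (Fin n) R) :=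
        Polynomial.X ^ 2 + Polynomial.C (C d) * Polynomial.X with hy'
      have hyy : y.comp (Polynomial.X + Polynomial.C (C d)) = y' := by
        rw [hy, C_neg, shift_y]
      -- the translates
      have hmap : ∀ (v : Fin n → R) (p : Polynomial (MvPolynomial (Fin n) R)),
          (p.comp y).map (tr v : MvPolynomial (Fin n) R →ₐ[R]
            MvPolynomial (Fin n) R).toRingHom =
          (p.map (tr v : MvPolynomial (Fin n) R →ₐ[R]
            MvPolynomial (Fin n) R).toRingHom).comp y := by
        intro v p
        rw [Polynomial.map_comp]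
        congr 1
        have : (tr v : MvPolynomial (Fin n) R →ₐ[R] MvPolynomial (Fin n) R).toRingHom (C (-d)) =
          C (-d) := (tr v).commutes (-d)
        rw [hy, Polynomial.map_add, Polynomial.map_pow, Polynomial.map_mul, Polynomial.map_X,
          Polynomial.map_C, this]
      have h3 : ∀ v : Fin n → R, (∀ k, v k = 0 ∨ (G k.succ ∧ v k = d)) →
          ∀ (s : ℕ) (m : Fin n →₀ ℕ), s + m.degree < j →
          coeff m (((p.map (tr v : MvPolynomial (Fin n) R →ₐ[R]
            MvPolynomial (Fin n) R).toRingHom).comp y + Polynomial.X *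
            (q.map (tr v : MvPolynomial (Fin n) R →ₐ[R]
            MvPolynomial (Fin n) R).toRingHom).comp y).coeff s) = 0 := by
        intro v hv s m hs
        have h3 := hyp 0 v (Or.inl rfl) hv s m hs
        rw [C_0, Polynomial.C_0, add_zero, Polynomial.comp_X] at h3
        rw [hpq, Polynomial.map_add, Polynomial.map_mul, Polynomial.map_X, hmap, hmap] at h3
        exact h3
      have h4 : ∀ v : Fin n → R, (∀ k, v k = 0 ∨ (G k.succ ∧ v k = d)) →
          ∀ (s : ℕ) (m : Fin n →₀ ℕ), s + m.degree < j →
          coeff m (((p.map (tr v : MvPolynomial (Fin n) R →ₐ[R]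
            MvPolynomial (Fin n) R).toRingHom).comp y' +
            (Polynomial.X + Polynomial.C (C d)) *
            (q.map (tr v : MvPolynomial (Fin n) R →ₐ[R]
            MvPolynomial (Fin n) R).toRingHom).comp y').coeff s) = 0 := by
        intro v hv s m hs
        have h4 := hyp d v (Or.inr ⟨hG, rfl⟩) hv s m hs
        rw [hpq, Polynomial.map_add, Polynomial.map_mul, Polynomial.map_X, hmap, hmap] at h4
        rw [Polynomial.add_comp, Polynomial.mul_comp, Polynomial.X_comp, Polynomial.comp_assoc,
          Polynomial.comp_assoc, hyy] at h4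
        exact h4
      -- divisibility for the coefficient of `p`
      have h6 : d ^ wt (fun k => G k.succ) m' ∣ coeff m' (p.coeff i) := by
        refine ih (fun k => G k.succ) (p.coeff i) m'.degree ?_ m' rfl
        intro v hv m hmd
        have h7 := (tri hd (p.map (tr v : MvPolynomial (Fin n) R →ₐ[R]
          MvPolynomial (Fin n) R).toRingHom) (q.map (tr v : MvPolynomial (Fin n) R →ₐ[R]
          MvPolynomial (Fin n) R).toRingHom) m (j - m.degree)
          (fun s hs => h3 v hv s m (by omega))
          (fun s hs => h4 v hv s m (by omega))).1 i (by omega)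
        rw [Polynomial.coeff_map] at h7
        exact h7
      have h0 : ∀ k : Fin n, (fun _ => (0 : R)) k = 0 ∨ (G k.succ ∧ (fun _ => (0 : R)) k = d) :=
        fun k => Or.inl rfl
      have htr0 : (tr (fun _ => (0 : R)) : MvPolynomial (Fin n) R →ₐ[R]
          MvPolynomial (Fin n) R).toRingHom = RingHom.id _ := by
        have : (tr (fun _ => (0 : R)) : MvPolynomial (Fin n) R →ₐ[R]
          MvPolynomial (Fin n) R) = AlgHom.id R _ := by
          apply MvPolynomial.algHom_ext
          intro k
          unfold tr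
          rw [aeval_X]
          simp
        rw [this]; rfl
      have h8 := (tri hd p q m' i
        (fun s hs => by
          have := h3 _ h0 s m' (by omega)
          rwa [htr0, Polynomial.map_id, Polynomial.map_id] at this)
        (fun s hs => by
          have := h4 _ h0 s m' (by omega)
          rwa [htr0, Polynomial.map_id, Polynomial.map_id] at this)).2
      rw [hpq, h8, pow_add]
      refine mul_dvd_mul ?_ h6
      rw [neg_pow]
      exact Dvd.intro_left _ rfl
    · rw [if_neg hG, zero_add]
      refine ih (fun k => G k.succ) ((finSuccEquiv R n P).coeff i) m'.degree ?_ m' rfl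
      intro v hv m hmd
      have h7 := hyp 0 v (Or.inl rfl) hv i m (by omega)
      rw [C_0, Polynomial.C_0, add_zero, Polynomial.comp_X, Polynomial.coeff_map] at h7
      exact h7

end MP_144d21_co.ABS
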